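import Pool.Agent.P8H99.CT.Stm

/-!
# Counting subspaces, and the Möbius function of the lattice of subspaces
-/

set_option autoImplicit false
set_option linter.unusedSectionVars false

open Module Finset

open Classical

namespace Pool.Agent.P8H88.EKR

variable {K V : Type} [Field K] [Finite K] [AddCommGroup V] [Module K V] [Module.Finite K V]
  [Fintype V] [Fintype (Submodule K V)]

/-- the number of elements of the field -/
noncomputable def qq (K : Type) : ℝ := (Nat.card K : ℝ)

lemma one_lt_qq : (1 : ℝ) < qq K := by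
  have : 1 < Nat.card K := Finite.one_lt_card
  unfold qq
  exact_mod_cast this

lemma qq_pos : (0 : ℝ) < qq K := lt_trans zero_lt_one one_lt_qq

lemma two_le_qq : (2 : ℝ) ≤ qq K := by
  have : 2 ≤ Nat.card K := Finite.one_lt_card
  unfold qq
  exact_mod_cast this

/-- the number of the vectors of a subspace -/
lemma sum_mem (U : Submodule K V) : ∑ v : V, (if v ∈ U then (1 : ℝ) else 0) = qq K ^ finrank K U := by
  rw [← sum_filter, sum_const, nsmul_eq_mul, mul_one]
  have h1 : Nat.card U = Nat.card K ^ finrank K U := Module.natCard_eq_pow_finrank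
  have h2 : Nat.card U = (univ.filter (fun v : V => v ∈ U)).card := by
    rw [Nat.card_eq_fintype_card, Fintype.card_subtype]
  unfold qq
  rw [← h2, h1]
  push_cast
  rfl

lemma sum_mem_diff {U W : Submodule K V} (h : U ≤ W) :
    ∑ v : V, (if v ∈ W ∧ v ∉ U then (1 : ℝ) else 0) = qq K ^ finrank K W - qq K ^ finrank K U := by
  rw [← sum_mem W, ← sum_mem U, ← sum_sub_distrib]
  refine sum_congr rfl fun v _ => ?_
  by_cases h1 : v ∈ U
  · have h2 := h h1
    simp [h1, h2]
  · by_cases h2 : v ∈ W <;> simp [h1, h2]

/-- adding a vector -/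
lemma finrank_add {B : Submodule K V} {v : V} (hv : v ∉ B) :
    finrank K (B ⊔ Submodule.span K {v} : Submodule K V) = finrank K B + 1 := by
  have hv0 : v ≠ 0 := by
    rintro rfl
    exact hv B.zero_mem
  have h1 := Submodule.finrank_sup_add_finrank_inf_eq B (Submodule.span K {v})
  have h2 : B ⊓ Submodule.span K {v} = ⊥ := by
    rw [eq_bot_iff]
    rintro x ⟨hx, hx'⟩
    obtain ⟨c, rfl⟩ := Submodule.mem_span_singleton.1 hx'
    rw [Submodule.mem_bot]
    by_contra hc
    apply hv
    have hc0 : c ≠ 0 := by
      rintro rfl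
      exact hc (zero_smul _ _)
    have := B.smul_mem c⁻¹ hx
    rwa [smul_smul, inv_mul_cancel₀ hc0, one_smul] at this
  rw [h2, finrank_bot, finrank_span_singleton hv0] at h1
  omega

lemma add_disjoint {A B : Submodule K V} {v : V} (hAB : B ⊓ A = ⊥) (hv : v ∉ A ⊔ B) :
    (B ⊔ Submodule.span K {v}) ⊓ A = ⊥ := by
  rw [eq_bot_iff]
  rintro x ⟨hx, hxA⟩
  obtain ⟨b, hb, w, hw, rfl⟩ := Submodule.mem_sup.1 hx
  obtain ⟨c, rfl⟩ := Submodule.mem_span_singleton.1 hw
  by_cases hc : c = 0
  · subst hc
    rw [zero_smul, add_zero] at hxA ⊢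
    rw [← hAB]
    exact ⟨hb, hxA⟩
  · exfalso
    apply hv
    have h1 : c • v ∈ A ⊔ B := by
      have : c • v = (b + c • v) - b := by abel
      rw [this]
      exact Submodule.sub_mem _ (Submodule.mem_sup_left hxA) (Submodule.mem_sup_right hb)
    have := (A ⊔ B).smul_mem c⁻¹ h1
    rwa [smul_smul, inv_mul_cancel₀ hc, one_smul] at this

/-- the condition of the count -/
def Ok (t : ℕ) (A Y B C : Submodule K V) : Prop := finrank K C = t ∧ B ≤ C ∧ C ≤ Y ∧ C ⊓ A = ⊥

/-- the number of the `t`-dimensional subspaces between `B` and `Y` which are disjoint from `A` -/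
noncomputable def cntZ (t : ℕ) (A Y B : Submodule K V) : ℝ :=
  ∑ C : Submodule K V, if Ok t A Y B C then (1 : ℝ) else 0

/-- the value of the count -/
noncomputable def zz (q : ℝ) (t a y : ℕ) : ℕ → ℝ
  | 0 => 1
  | d + 1 => zz q t a y d * (q ^ y - q ^ (a + (t - (d + 1)))) / (q ^ t - q ^ (t - (d + 1)))

lemma pow_lt {a b : ℕ} (h : a < b) : qq K ^ a < qq K ^ b := pow_lt_pow_right₀ one_lt_qq h

theorem cnt_eq (t : ℕ) (A Y : Submodule K V) (hAY : A ≤ Y) : ∀ (d : ℕ) (B : Submodule K V),
    finrank K B + d = t → B ≤ Y → B ⊓ A = ⊥ →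
      cntZ t A Y B = zz (qq K) t (finrank K A) (finrank K Y) d := by
  intro d
  induction d with
  | zero =>
    intro B hB hBY hBA
    unfold cntZ zz
    rw [sum_eq_single B]
    · rw [if_pos]
      exact ⟨by omega, le_rfl, hBY, hBA⟩
    · intro C _ hC
      rw [if_neg]
      rintro ⟨h1, h2, _⟩
      exact hC (Submodule.eq_of_le_of_finrank_eq h2 (by omega)).symm
    · intro h
      exact absurd (mem_univ _) h
  | succ d ih =>
    intro B hB hBY hBA
    have hj : t - (d + 1) = finrank K B := by omega
    have hAB : finrank K (A ⊔ B : Submodule K V) = finrank K A + finrank K B := by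
      have h1 := Submodule.finrank_sup_add_finrank_inf_eq A B
      rw [inf_comm, hBA, finrank_bot] at h1
      omega
    have hpos : qq K ^ finrank K B < qq K ^ t := pow_lt (by omega)
    -- the double counting
    have key : cntZ t A Y B * (qq K ^ t - qq K ^ finrank K B) =
        ∑ v : V, (if v ∈ Y ∧ v ∉ A ⊔ B then (1 : ℝ) else 0) *
          zz (qq K) t (finrank K A) (finrank K Y) d := by
      have h1 : cntZ t A Y B * (qq K ^ t - qq K ^ finrank K B) =
          ∑ C : Submodule K V, ∑ v : V,
            if Ok t A Y B C ∧ v ∈ C ∧ v ∉ B then (1 : ℝ) else 0 := by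
        unfold cntZ
        rw [sum_mul]
        refine sum_congr rfl fun C _ => ?_
        by_cases hC : Ok t A Y B C
        · simp only [hC, if_true, true_and, one_mul]
          rw [sum_mem_diff hC.2.1, hC.1]
        · simp [hC]
      rw [h1, sum_comm]
      refine sum_congr rfl fun v _ => ?_
      by_cases hv : v ∈ Y ∧ v ∉ A ⊔ B
      · have hvB : v ∉ B := fun h => hv.2 (Submodule.mem_sup_right h)
        rw [if_pos hv, one_mul, ← ih (B ⊔ Submodule.span K {v})
          (by rw [finrank_add hvB]; omega)
          (sup_le hBY (by rw [Submodule.span_singleton_le_iff_mem]; exact hv.1))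
          (add_disjoint hBA hv.2)]
        unfold cntZ
        refine sum_congr rfl fun C _ => ?_
        congr 1
        unfold Ok
        rw [sup_le_iff, Submodule.span_singleton_le_iff_mem]
        simp only [eq_iff_iff]
        tauto
      · rw [if_neg hv, zero_mul]
        refine sum_eq_zero fun C _ => ?_
        rw [if_neg]
        rintro ⟨⟨h2, h3, h4, h5⟩, h6, h7⟩
        apply hv
        refine ⟨h4 h6, fun h8 => h7 ?_⟩
        obtain ⟨a, ha, b, hb, rfl⟩ := Submodule.mem_sup.1 h8
        have h9 : a ∈ C := by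
          have : a = (a + b) - b := by abel
          rw [this]
          exact C.sub_mem h6 (h3 hb)
        have h10 : a ∈ C ⊓ A := ⟨h9, ha⟩
        rw [h5, Submodule.mem_bot] at h10
        rw [h10, zero_add]
        exact hb
    rw [← sum_mul, sum_mem_diff (sup_le hAY hBY), hAB] at key
    rw [zz, hj, eq_div_iff (by linarith), key]
    ring

lemma zz_succ (t a y d : ℕ) (hd : d + 1 ≤ t) :
    zz (qq K) t a y (d + 1) * (qq K ^ t - qq K ^ (t - (d + 1))) =
      zz (qq K) t a y d * (qq K ^ y - qq K ^ (a + (t - (d + 1)))) := by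
  have : qq K ^ (t - (d + 1)) < qq K ^ t := pow_lt (by omega)
  rw [zz, div_mul_cancel₀]
  linarith

lemma zz_line (i : ℕ) : ∀ d, d ≤ i → zz (qq K) i 1 (i + 1) d = qq K ^ d := by
  intro d
  induction d with
  | zero => intro _; simp [zz]
  | succ d ih =>
    intro hd
    have h1 : qq K ^ (i - (d + 1)) < qq K ^ i := pow_lt (by omega)
    rw [zz, ih (by omega), div_eq_iff (by linarith), show 1 + (i - (d + 1)) = (i - (d + 1)) + 1 by ring,
      pow_succ, pow_succ, pow_succ]
    ring

/-- the Möbius function -/
noncomputable def mu (q : ℝ) (i : ℕ) : ℝ := (-1) ^ i * q ^ (i.choose 2)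

lemma mu_succ (q : ℝ) (i : ℕ) : mu q (i + 1) = - (mu q i * q ^ i) := by
  unfold mu
  have h : (i + 1).choose 2 = i + i.choose 2 := by
    rw [Nat.choose_succ_succ' i 1, Nat.choose_one_right]
  rw [h, pow_add, pow_succ]
  ring

theorem moebius (X : Submodule K V) :
    ∑ E : Submodule K V, (if E ≤ X then mu (qq K) (finrank K E) else 0) =
      if X = ⊥ then 1 else 0 := by
  by_cases hX : X = ⊥
  · subst hX
    rw [if_pos rfl, sum_eq_single ⊥]
    · simp [mu]
    · intro E _ hE
      rw [if_neg]
      intro h
      exact hE (eq_bot_iff.2 h)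
    · intro h
      exact absurd (mem_univ _) h
  · rw [if_neg hX]
    obtain ⟨v, hvX, hv0⟩ := (Submodule.ne_bot_iff X).1 hX
    have hspan : finrank K (Submodule.span K {v}) = 1 := finrank_span_singleton hv0
    -- the subspaces without `v`
    have h1 : ∑ E : Submodule K V, (if E ≤ X then mu (qq K) (finrank K E) else 0) =
        ∑ E : Submodule K V, (if E ≤ X ∧ v ∈ E then mu (qq K) (finrank K E) else 0) +
        ∑ E : Submodule K V, (if E ≤ X ∧ v ∉ E then mu (qq K) (finrank K E) else 0) := by
      rw [← sum_add_distrib]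
      refine sum_congr rfl fun E _ => ?_
      by_cases hE : E ≤ X <;> by_cases hv : v ∈ E <;> simp [hE, hv]
    have h2 : ∑ E : Submodule K V, (if E ≤ X ∧ v ∉ E then mu (qq K) (finrank K E) else 0) =
        ∑ E' : Submodule K V, ∑ E : Submodule K V,
          (if (E ≤ X ∧ v ∉ E) ∧ E ⊔ Submodule.span K {v} = E' then mu (qq K) (finrank K E) else 0) := by
      rw [sum_comm]
      refine sum_congr rfl fun E _ => ?_
      rw [sum_eq_single (E ⊔ Submodule.span K {v})]
      · by_cases h : E ≤ X ∧ v ∉ E <;> simp [h]
      · intro E' _ hE'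
        rw [if_neg]
        rintro ⟨_, h⟩
        exact hE' h.symm
      · intro h
        exact absurd (mem_univ _) h
    have h3 : ∀ E' : Submodule K V, ∑ E : Submodule K V,
          (if (E ≤ X ∧ v ∉ E) ∧ E ⊔ Submodule.span K {v} = E' then mu (qq K) (finrank K E) else 0) =
        - (if E' ≤ X ∧ v ∈ E' then mu (qq K) (finrank K E') else 0) := by
      intro E'
      by_cases hE' : E' ≤ X ∧ v ∈ E'
      · rw [if_pos hE']
        have hfr : 1 ≤ finrank K E' := by
          rw [← hspan]
          exact Submodule.finrank_mono (by rw [Submodule.span_singleton_le_iff_mem]; exact hE'.2)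
        obtain ⟨i, hi⟩ : ∃ i, finrank K E' = i + 1 := ⟨finrank K E' - 1, by omega⟩
        have hc := cnt_eq i (Submodule.span K {v}) E'
          (by rw [Submodule.span_singleton_le_iff_mem]; exact hE'.2) i ⊥ (by rw [finrank_bot, zero_add])
          bot_le (bot_inf_eq _)
        rw [hspan, hi, zz_line i i le_rfl] at hc
        rw [hi, mu_succ, neg_neg, ← hc]
        unfold cntZ
        rw [mul_sum]
        refine sum_congr rfl fun E _ => ?_
        rw [mul_ite, mul_one, mul_zero]
        have hiff : ((E ≤ X ∧ v ∉ E) ∧ E ⊔ Submodule.span K {v} = E') ↔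
            Ok i (Submodule.span K {v}) E' ⊥ E := by
          constructor
          · rintro ⟨⟨h4, h5⟩, h6⟩
            have h7 := finrank_add h5
            rw [h6, hi] at h7
            refine ⟨by omega, bot_le, h6 ▸ le_sup_left, ?_⟩
            rw [eq_bot_iff]
            rintro x ⟨hx, hx'⟩
            obtain ⟨c, rfl⟩ := Submodule.mem_span_singleton.1 hx'
            rw [Submodule.mem_bot]
            by_contra hc'
            apply h5
            have hc0 : c ≠ 0 := by
              rintro rfl
              exact hc' (zero_smul _ _)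
            have := E.smul_mem c⁻¹ hx
            rwa [smul_smul, inv_mul_cancel₀ hc0, one_smul] at this
          · rintro ⟨h4, _, h6, h7⟩
            have h8 : v ∉ E := by
              intro h
              have : v ∈ E ⊓ Submodule.span K {v} := ⟨h, Submodule.mem_span_singleton_self v⟩
              rw [h7, Submodule.mem_bot] at this
              exact hv0 this
            refine ⟨⟨h6.trans hE'.1, h8⟩, ?_⟩
            apply Submodule.eq_of_le_of_finrank_eq
            · exact sup_le h6 (by rw [Submodule.span_singleton_le_iff_mem]; exact hE'.2)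
            · rw [finrank_add h8, hi, h4]
        by_cases hok : Ok i (Submodule.span K {v}) E' ⊥ E
        · rw [if_pos hok, if_pos (hiff.2 hok), hok.1]
        · rw [if_neg hok, if_neg (fun h => hok (hiff.1 h))]
      · rw [if_neg hE', neg_zero]
        refine sum_eq_zero fun E _ => ?_
        rw [if_neg]
        rintro ⟨⟨h4, h5⟩, h6⟩
        apply hE'
        rw [← h6]
        exact ⟨sup_le h4 (by rw [Submodule.span_singleton_le_iff_mem]; exact hvX),
          Submodule.mem_sup_right (Submodule.mem_span_singleton_self v)⟩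
    rw [h1, h2, sum_congr rfl fun E' _ => h3 E', sum_neg_distrib, add_neg_cancel]

end Pool.Agent.P8H88.EKR
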