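import Pool.Agent.P8H88.EKR.Cnt

/-!
# The eigenvalues of the `q`-Kneser graph
-/

set_option autoImplicit false
set_option linter.unusedSectionVars false

open Module Finset

open Classical

namespace Pool.Agent.P8H88.EKR

variable {K V : Type} [Field K] [Finite K] [AddCommGroup V] [Module K V] [Module.Finite K V]
  [Fintype V] [Fintype (Submodule K V)]

/-- `h` is harmonic in dimension `j` -/
def Harm (j : ℕ) (h : Submodule K V → ℝ) : Prop :=
  ∀ E : Submodule K V, finrank K E < j →
    ∑ B : Submodule K V, (if finrank K B = j ∧ E ≤ B then h B else 0) = 0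

/-- the sum over the `j`-dimensional subspaces of `A` -/
noncomputable def II (j : ℕ) (h : Submodule K V → ℝ) (A : Submodule K V) : ℝ :=
  ∑ B : Submodule K V, if finrank K B = j ∧ B ≤ A then h B else 0

/-- the Kneser operator -/
noncomputable def KK (k : ℕ) (f : Submodule K V → ℝ) (A : Submodule K V) : ℝ :=
  ∑ C : Submodule K V, if finrank K C = k ∧ C ⊓ A = ⊥ then f C else 0

theorem harm_disjoint (j : ℕ) (h : Submodule K V → ℝ) (hh : Harm j h) (A : Submodule K V) :
    ∑ B : Submodule K V, (if finrank K B = j ∧ B ⊓ A = ⊥ then h B else 0) =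
      mu (qq K) j * II j h A := by
  have h1 : ∀ B : Submodule K V, (if finrank K B = j ∧ B ⊓ A = ⊥ then h B else 0) =
      ∑ E : Submodule K V, (if E ≤ A then mu (qq K) (finrank K E) *
        (if finrank K B = j ∧ E ≤ B then h B else 0) else 0) := by
    intro B
    by_cases hB : finrank K B = j
    · have h2 := moebius (B ⊓ A)
      have h3 : (if finrank K B = j ∧ B ⊓ A = ⊥ then h B else 0) =
          (if B ⊓ A = ⊥ then 1 else 0) * h B := by
        by_cases h4 : B ⊓ A = ⊥ <;> simp [hB, h4]
      rw [h3, ← h2, sum_mul]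
      refine sum_congr rfl fun E _ => ?_
      by_cases h4 : E ≤ A <;> by_cases h5 : E ≤ B <;> simp [hB, h4, h5]
    · simp [hB]
  rw [sum_congr rfl fun B _ => h1 B, sum_comm]
  unfold II
  rw [mul_sum]
  refine sum_congr rfl fun E _ => ?_
  by_cases hE : E ≤ A
  · simp only [hE, if_true, and_true]
    rw [← mul_sum]
    rcases lt_trichotomy (finrank K E) j with h2 | h2 | h2
    · rw [hh E h2, mul_zero, if_neg (by omega), mul_zero]
    · rw [if_pos h2, h2]
      congr 1
      rw [sum_eq_single E]
      · rw [if_pos ⟨h2, le_rfl⟩]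
      · intro B _ hB
        rw [if_neg]
        rintro ⟨h3, h4⟩
        exact hB (Submodule.eq_of_le_of_finrank_eq h4 (by omega)).symm
      · intro h
        exact absurd (mem_univ _) h
    · rw [if_neg (by omega), mul_zero, sum_eq_zero, mul_zero]
      intro B _
      rw [if_neg]
      rintro ⟨h3, h4⟩
      have := Submodule.finrank_mono h4
      omega
  · simp [hE]

/-- harmonic functions give eigenvectors -/
theorem eig (k j : ℕ) (hj : j ≤ k) (h : Submodule K V → ℝ) (hh : Harm j h) (A : Submodule K V)
    (hA : finrank K A = k) :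
    KK k (II j h) A = mu (qq K) j * zz (qq K) k k (finrank K V) (k - j) * II j h A := by
  have h1 : KK k (II j h) A = ∑ B : Submodule K V,
      (if finrank K B = j ∧ B ⊓ A = ⊥ then h B else 0) * zz (qq K) k k (finrank K V) (k - j) := by
    unfold KK II
    have h2 : ∀ C : Submodule K V, (if finrank K C = k ∧ C ⊓ A = ⊥ then
        ∑ B : Submodule K V, (if finrank K B = j ∧ B ≤ C then h B else 0) else 0) =
        ∑ B : Submodule K V, (if finrank K B = j then h B else 0) *
          (if Ok k A ⊤ B C then (1 : ℝ) else 0) := by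
      intro C
      by_cases hC : finrank K C = k ∧ C ⊓ A = ⊥
      · rw [if_pos hC]
        refine sum_congr rfl fun B _ => ?_
        by_cases h3 : finrank K B = j <;> by_cases h4 : B ≤ C <;> simp [h3, h4, hC, Ok]
      · rw [if_neg hC]
        symm
        refine sum_eq_zero fun B _ => ?_
        have : ¬ Ok k A ⊤ B C := fun h => hC ⟨h.1, h.2.2.2⟩
        rw [if_neg this, mul_zero]
    rw [sum_congr rfl fun C _ => h2 C, sum_comm]
    refine sum_congr rfl fun B _ => ?_
    rw [← mul_sum]
    change _ * cntZ k A ⊤ B = _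
    by_cases hB : finrank K B = j
    · by_cases hBA : B ⊓ A = ⊥
      · rw [if_pos hB, if_pos ⟨hB, hBA⟩, cnt_eq k A ⊤ le_top (k - j) B (by omega) le_top hBA, hA,
          finrank_top]
      · rw [if_neg (fun h : finrank K B = j ∧ B ⊓ A = ⊥ => hBA h.2), zero_mul]
        have : cntZ k A ⊤ B = 0 := by
          unfold cntZ
          refine sum_eq_zero fun C _ => ?_
          rw [if_neg]
          rintro ⟨_, h3, _, h5⟩
          apply hBA
          rw [eq_bot_iff, ← h5]
          exact inf_le_inf_right A h3
        rw [this, mul_zero]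
    · rw [if_neg hB, if_neg (fun h : finrank K B = j ∧ B ⊓ A = ⊥ => hB h.1), zero_mul, zero_mul]
  rw [h1, ← sum_mul, harm_disjoint j h hh A]
  ring

/-- the functions on the `k`-dimensional subspaces -/
abbrev Lk (K V : Type) [Field K] [AddCommGroup V] [Module K V] (k : ℕ) : Type :=
  {A : Submodule K V // finrank K A = k}

/-- the matrix of the Kneser graph -/
noncomputable def MM (K V : Type) [Field K] [AddCommGroup V] [Module K V] (k : ℕ) :
    Matrix (Lk K V k) (Lk K V k) ℝ := fun A C => if C.1 ⊓ A.1 = ⊥ then 1 else 0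

lemma sumL (k : ℕ) (g : Submodule K V → ℝ) : ∑ C : Lk K V k, g C.1 =
    ∑ C : Submodule K V, if finrank K C = k then g C else 0 := by
  rw [← sum_filter]
  exact (Finset.sum_subtype (univ.filter fun C : Submodule K V => finrank K C = k)
    (by simp) g).symm

lemma MM_apply (k : ℕ) (f : Submodule K V → ℝ) (A : Lk K V k) :
    ((MM K V k).mulVec (fun C => f C.1)) A = KK k f A.1 := by
  unfold Matrix.mulVec KK dotProduct MM
  rw [sumL k (fun C => (if C ⊓ A.1 = ⊥ then (1 : ℝ) else 0) * f C)]
  refine sum_congr rfl fun C _ => ?_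
  by_cases h1 : finrank K C = k <;> by_cases h2 : C ⊓ A.1 = ⊥ <;> simp [h1, h2]

/-- the restriction of a function to the `k`-dimensional subspaces -/
def res (k : ℕ) (f : Submodule K V → ℝ) : Lk K V k → ℝ := fun A => f A.1

/-- the function attached to a subspace -/
noncomputable def ee (E : Submodule K V) : Submodule K V → ℝ := fun A => if E ≤ A then 1 else 0

/-- the orthogonal decomposition -/
theorem decomp (j : ℕ) (c : Submodule K V → ℝ) :
    ∃ (h w : Submodule K V → ℝ), Harm j h ∧ (∀ E : Submodule K V, ¬ finrank K E < j → w E = 0) ∧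
      ∀ B : Submodule K V, finrank K B = j → c B = h B + ∑ E, w E * ee E B := by
  let W : Submodule ℝ (EuclideanSpace ℝ (Lk K V j)) := Submodule.span ℝ
    (Set.range fun E : {E : Submodule K V // finrank K E < j} =>
      (WithLp.toLp 2 (res j (ee E.1)) : EuclideanSpace ℝ (Lk K V j)))
  obtain ⟨y, hy, z, hz, hyz⟩ := W.exists_add_mem_mem_orthogonal (WithLp.toLp 2 (res j c))
  obtain ⟨w, hw⟩ := (Submodule.mem_span_range_iff_exists_fun ℝ).1 hy
  refine ⟨fun B => if hB : finrank K B = j then z ⟨B, hB⟩ else 0,
    fun E => if hE : finrank K E < j then w ⟨E, hE⟩ else 0, ?_, ?_, ?_⟩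
  · intro E hE
    have h1 := (W.mem_orthogonal z).1 hz _ (Submodule.subset_span ⟨⟨E, hE⟩, rfl⟩)
    rw [PiLp.inner_apply] at h1
    have h2 : ∑ C : Lk K V j, ee E C.1 * z C = 0 := by
      rw [← h1]
      refine sum_congr rfl fun C _ => ?_
      simp [res, mul_comm]
    have h3 := sumL j (fun B : Submodule K V =>
      if hB : finrank K B = j then ee E B * z ⟨B, hB⟩ else 0)
    have h4 : ∑ C : Lk K V j, (if hB : finrank K C.1 = j then ee E C.1 * z ⟨C.1, hB⟩ else 0) =
        ∑ C : Lk K V j, ee E C.1 * z C := by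
      refine sum_congr rfl fun C _ => ?_
      rw [dif_pos C.2]
    rw [h4, h2] at h3
    refine Eq.trans ?_ h3.symm
    refine sum_congr rfl fun B _ => ?_
    by_cases hB : finrank K B = j <;> by_cases hE' : E ≤ B <;> simp [hB, hE', ee]
  · intro E hE
    exact dif_neg hE
  · intro B hB
    have h1 := congrArg (fun u : EuclideanSpace ℝ (Lk K V j) => u ⟨B, hB⟩) hyz
    have h2 := congrArg (fun u : EuclideanSpace ℝ (Lk K V j) => u ⟨B, hB⟩) hw
    simp only [WithLp.ofLp_sum, WithLp.ofLp_smul, Finset.sum_apply, Pi.smul_apply, smul_eq_mul,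
      res, WithLp.ofLp_add, Pi.add_apply] at h1 h2
    beta_reduce
    rw [dif_pos hB, h1, ← h2, add_comm]
    congr 1
    have h3 := Finset.sum_subtype (F := inferInstance)
      (univ.filter fun E : Submodule K V => finrank K E < j)
      (p := fun E : Submodule K V => finrank K E < j) (by simp)
      (fun E : Submodule K V => (if hE : finrank K E < j then w ⟨E, hE⟩ else 0) * ee E B)
    rw [sum_filter] at h3
    have h4 : ∑ E : Submodule K V, (if hE : finrank K E < j then w ⟨E, hE⟩ else 0) * ee E B =
        ∑ E : Submodule K V, if finrank K E < j then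
          (if hE : finrank K E < j then w ⟨E, hE⟩ else 0) * ee E B else 0 := by
      refine sum_congr rfl fun E _ => ?_
      by_cases hE : finrank K E < j <;> simp [hE]
    rw [h4, h3]
    refine sum_congr rfl fun E _ => ?_
    rw [dif_pos E.2]

/-- the functions which are sums of eigenvectors for the eigenvalues `≥ - τ` -/
noncomputable def WW (K V : Type) [Field K] [AddCommGroup V] [Module K V] [Fintype (Submodule K V)]
    (k : ℕ) (τ : ℝ) : Submodule ℝ (Lk K V k → ℝ) :=
  ⨆ ν : {ν : ℝ // - τ ≤ ν}, Module.End.eigenspace (Matrix.toLin' (MM K V k)) ν.1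

lemma mem_WW {k : ℕ} {τ : ℝ} {f : Submodule K V → ℝ} {ν : ℝ} (hν : - τ ≤ ν)
    (hf : ∀ A : Submodule K V, finrank K A = k → KK k f A = ν * f A) : res k f ∈ WW K V k τ := by
  refine Submodule.mem_iSup_of_mem (⟨ν, hν⟩ : {ν : ℝ // - τ ≤ ν}) ?_
  rw [Module.End.mem_eigenspace_iff, Matrix.toLin'_apply]
  funext A
  have h := MM_apply k f A
  rw [hf A.1 A.2] at h
  exact h

lemma II_ee (j : ℕ) (k : ℕ) (E : Submodule K V) (hE : finrank K E ≤ j) (A : Submodule K V)
    (hA : finrank K A = k) :
    II j (ee E) A = zz (qq K) j 0 k (j - finrank K E) * ee E A := by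
  unfold II ee
  by_cases hEA : E ≤ A
  · rw [if_pos hEA, mul_one]
    have h := cnt_eq j (⊥ : Submodule K V) A bot_le (j - finrank K E) E (by omega) hEA (inf_bot_eq _)
    rw [finrank_bot, hA] at h
    rw [← h]
    unfold cntZ Ok
    refine sum_congr rfl fun B _ => ?_
    by_cases h1 : finrank K B = j <;> by_cases h2 : B ≤ A <;> by_cases h3 : E ≤ B <;>
      simp [h1, h2, h3]
  · rw [if_neg hEA, mul_zero]
    refine sum_eq_zero fun B _ => ?_
    by_cases h1 : finrank K B = j ∧ B ≤ A
    · rw [if_pos h1, if_neg]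
      intro h
      exact hEA (h.trans h1.2)
    · rw [if_neg h1]

/-- the functions of the subspaces span everything -/
theorem ee_mem (k : ℕ) (τ : ℝ)
    (hτ : ∀ j, j ≤ k → - τ ≤ mu (qq K) j * zz (qq K) k k (finrank K V) (k - j)) :
    ∀ (j : ℕ), j ≤ k → ∀ E : Submodule K V, finrank K E = j → res k (ee E) ∈ WW K V k τ := by
  intro j
  induction j using Nat.strong_induction_on with
  | _ j ih =>
    intro hj E hE
    obtain ⟨h, w, hh, hw0, hdec⟩ := decomp j (fun B : Submodule K V => if B = E then 1 else 0)
    -- the indicator function of `E` summed over the subspaces of `A`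
    have h1 : ∀ A : Submodule K V, finrank K A = k →
        ee E A = II j h A + ∑ F : Submodule K V, w F * (zz (qq K) j 0 k (j - finrank K F) * ee F A) := by
      intro A hA
      have h2 : ee E A = II j (fun B : Submodule K V => if B = E then 1 else 0) A := by
        unfold II ee
        rw [sum_eq_single E]
        · by_cases h3 : E ≤ A <;> simp [h3, hE]
        · intro B _ hB
          simp [hB]
        · intro h
          exact absurd (mem_univ _) h
      rw [h2]
      unfold II
      have h3 : ∀ B : Submodule K V, (if finrank K B = j ∧ B ≤ A then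
          (if B = E then (1 : ℝ) else 0) else 0) = (if finrank K B = j ∧ B ≤ A then h B else 0) +
          ∑ F : Submodule K V, w F * (if finrank K B = j ∧ B ≤ A then ee F B else 0) := by
        intro B
        by_cases hB : finrank K B = j ∧ B ≤ A
        · simp only [hB, and_self, if_true]
          exact hdec B hB.1
        · simp [hB]
      rw [sum_congr rfl fun B _ => h3 B, sum_add_distrib, sum_comm]
      congr 1
      refine sum_congr rfl fun F _ => ?_
      rw [← mul_sum]
      by_cases hF : finrank K F < j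
      · congr 1
        exact II_ee j k F hF.le A hA
      · rw [hw0 F hF, zero_mul, zero_mul]
    have h2 : res k (ee E) = res k (II j h) + ∑ F : Submodule K V,
        (w F * zz (qq K) j 0 k (j - finrank K F)) • res k (ee F) := by
      funext A
      rw [Pi.add_apply, Finset.sum_apply]
      change ee E A.1 = II j h A.1 + _
      rw [h1 A.1 A.2]
      congr 1
      refine sum_congr rfl fun F _ => ?_
      rw [Pi.smul_apply, smul_eq_mul, mul_assoc]
      rfl
    rw [h2]
    refine Submodule.add_mem _ (mem_WW (hτ j hj) fun A hA => eig k j hj h hh A hA) ?_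
    refine Submodule.sum_mem _ fun F _ => ?_
    by_cases hF : finrank K F < j
    · exact Submodule.smul_mem _ _ (ih (finrank K F) hF (by omega) F rfl)
    · rw [hw0 F hF, zero_mul, zero_smul]
      exact Submodule.zero_mem _

theorem WW_top (k : ℕ) (τ : ℝ)
    (hτ : ∀ j, j ≤ k → - τ ≤ mu (qq K) j * zz (qq K) k k (finrank K V) (k - j)) :
    WW K V k τ = ⊤ := by
  rw [eq_top_iff]
  intro f _
  have h1 : f = ∑ A : Lk K V k, f A • res k (ee A.1) := by
    funext B
    rw [Finset.sum_apply, sum_eq_single B]
    · simp [res, ee]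
    · intro A _ hA
      rw [Pi.smul_apply, smul_eq_mul]
      unfold res ee
      rw [if_neg, mul_zero]
      intro h
      exact hA (Subtype.ext (Submodule.eq_of_le_of_finrank_eq h (by rw [A.2, B.2])))
    · intro h
      exact absurd (mem_univ _) h
  rw [h1]
  exact Submodule.sum_mem _ fun A _ => Submodule.smul_mem _ _ (ee_mem k τ hτ k le_rfl A.1 A.2)

lemma MM_herm (k : ℕ) (τ : ℝ) :
    (MM K V k + τ • (1 : Matrix (Lk K V k) (Lk K V k) ℝ)).IsHermitian := by
  ext A B
  rw [Matrix.conjTranspose_apply, star_trivial, Matrix.add_apply, Matrix.add_apply]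
  unfold MM
  rw [inf_comm, Matrix.smul_apply, Matrix.smul_apply, Matrix.one_apply, Matrix.one_apply]
  simp only [eq_comm]

/-- the form is positive -/
theorem psd (k : ℕ) (τ : ℝ)
    (hτ : ∀ j, j ≤ k → - τ ≤ mu (qq K) j * zz (qq K) k k (finrank K V) (k - j)) :
    (MM K V k + τ • (1 : Matrix (Lk K V k) (Lk K V k) ℝ)).PosSemidef := by
  have hH := MM_herm (K := K) (V := V) k τ
  rw [hH.posSemidef_iff_eigenvalues_nonneg]
  intro i
  by_contra hneg
  rw [Pi.zero_apply, not_le] at hneg
  set v : Lk K V k → ℝ := (hH.eigenvectorBasis i).ofLp with hv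
  have h1 : (MM K V k + τ • (1 : Matrix (Lk K V k) (Lk K V k) ℝ)).mulVec v =
      hH.eigenvalues i • v := hH.mulVec_eigenvectorBasis i
  have h2 : v ∈ Module.End.eigenspace (Matrix.toLin' (MM K V k)) (hH.eigenvalues i - τ) := by
    rw [Module.End.mem_eigenspace_iff, Matrix.toLin'_apply]
    rw [Matrix.add_mulVec, Matrix.smul_mulVec, Matrix.one_mulVec] at h1
    rw [sub_smul, ← h1]
    abel
  have h3 : v ∈ (⊤ : Submodule ℝ (Lk K V k → ℝ)) := Submodule.mem_top
  rw [← WW_top (K := K) (V := V) k τ hτ] at h3
  have h4 := (Module.End.eigenspaces_iSupIndep (Matrix.toLin' (MM K V k)))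
    (hH.eigenvalues i - τ)
  have h5 : WW K V k τ ≤ ⨆ (j : ℝ) (_ : j ≠ hH.eigenvalues i - τ),
      Module.End.eigenspace (Matrix.toLin' (MM K V k)) j := by
    unfold WW
    refine iSup_le fun ν => ?_
    refine le_iSup₂_of_le ν.1 ?_ le_rfl
    intro h
    have := ν.2
    linarith
  have h6 := Submodule.disjoint_def.1 h4 v h2 (h5 h3)
  have h7 : hH.eigenvectorBasis i = 0 := by
    have : WithLp.toLp 2 v = hH.eigenvectorBasis i := rfl
    rw [← this, h6]
    rfl
  exact hH.eigenvectorBasis.orthonormal.ne_zero i h7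

end Pool.Agent.P8H88.EKR
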