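import Pool.Agent.P8H88.EKR.Eig

/-!
# Project CT, package E: cross-intersecting families in one layer
-/

set_option autoImplicit false
set_option linter.unusedSectionVars false

open Module Finset Pool.Agent.V11152.CS

open Classical

namespace Pool.Agent.P8H88.EKR

section Numbers

variable {K : Type} [Field K] [Finite K]

lemma zz_pos (k n : ℕ) (hn : 2 * k ≤ n) : ∀ d, d ≤ k → 0 < zz (qq K) k k n d := by
  intro d
  induction d with
  | zero => intro _; simp [zz]
  | succ d ih =>
    intro hd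
    rw [zz]
    have h1 : qq K ^ (k + (k - (d + 1))) < qq K ^ n := pow_lt (by omega)
    have h2 : qq K ^ (k - (d + 1)) < qq K ^ k := pow_lt (by omega)
    exact div_pos (mul_pos (ih (by omega)) (by linarith)) (by linarith)

/-- `z_j (q^k - q^j) = z_{j+1} (q^n - q^{k+j})` -/
lemma z_rec (k n j : ℕ) (hj : j < k) :
    zz (qq K) k k n (k - j) * (qq K ^ k - qq K ^ j) =
      zz (qq K) k k n (k - (j + 1)) * (qq K ^ n - qq K ^ (k + j)) := by
  obtain ⟨d, hd⟩ : ∃ d, k - j = d + 1 := ⟨k - j - 1, by omega⟩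
  have h1 : k - (d + 1) = j := by omega
  have h2 : k - (j + 1) = d := by omega
  rw [hd, h2]
  have h := zz_succ (K := K) k k n d (by omega)
  rwa [h1] at h

lemma z_bound (k n : ℕ) (hn : 2 * k ≤ n) : ∀ j, 1 ≤ j → j ≤ k →
    qq K ^ (j.choose 2) * zz (qq K) k k n (k - j) ≤ zz (qq K) k k n (k - 1) := by
  intro j
  induction j with
  | zero => intro h; omega
  | succ j ih =>
    intro _ hj
    rcases Nat.eq_zero_or_pos j with rfl | hj0
    · simp
    · refine le_trans ?_ (ih hj0 (by omega))
      have h1 : (j + 1).choose 2 = j.choose 2 + j := by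
        rw [Nat.choose_succ_succ' j 1, Nat.choose_one_right, add_comm]
      have hrec := z_rec (K := K) k n j (by omega)
      have h2 : qq K ^ (k + j) < qq K ^ n := pow_lt (by omega)
      have h3 : 0 < zz (qq K) k k n (k - (j + 1)) := zz_pos k n hn _ (by omega)
      have h3' : 0 < zz (qq K) k k n (k - j) := zz_pos k n hn _ (by omega)
      have h4 : qq K ^ j < qq K ^ k := pow_lt (by omega)
      have h5 : qq K ^ j * (qq K ^ k - qq K ^ j) ≤ qq K ^ n - qq K ^ (k + j) := by
        have h6 : qq K ^ (2 * k) ≤ qq K ^ n := pow_le_pow_right₀ one_lt_qq.le hn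
        have h7 : qq K ^ (k + j + 1) ≤ qq K ^ (2 * k) := pow_le_pow_right₀ one_lt_qq.le (by omega)
        have h8 : 2 * qq K ^ (k + j) ≤ qq K ^ (k + j + 1) := by
          rw [pow_succ, mul_comm]
          exact mul_le_mul_of_nonneg_left two_le_qq (pow_pos qq_pos _).le
        have h9 : 0 ≤ qq K ^ j * qq K ^ j := by
          have := pow_pos (qq_pos (K := K)) j
          positivity
        have h10 : qq K ^ j * qq K ^ k = qq K ^ (k + j) := by
          rw [← pow_add, add_comm]
        nlinarith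
      have h6 : qq K ^ j * zz (qq K) k k n (k - (j + 1)) ≤ zz (qq K) k k n (k - j) := by
        have h7 : (qq K ^ j * zz (qq K) k k n (k - (j + 1))) * (qq K ^ k - qq K ^ j) ≤
            zz (qq K) k k n (k - j) * (qq K ^ k - qq K ^ j) := by
          rw [hrec]
          have := mul_le_mul_of_nonneg_left h5 h3.le
          calc (qq K ^ j * zz (qq K) k k n (k - (j + 1))) * (qq K ^ k - qq K ^ j)
              = zz (qq K) k k n (k - (j + 1)) * (qq K ^ j * (qq K ^ k - qq K ^ j)) := by ring
            _ ≤ _ := this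
        exact le_of_mul_le_mul_right h7 (by linarith)
      rw [h1, pow_add, mul_assoc]
      exact mul_le_mul_of_nonneg_left h6 (pow_pos qq_pos _).le

lemma eig_ge (k n : ℕ) (hk : 1 ≤ k) (hn : 2 * k ≤ n) (j : ℕ) (hj : j ≤ k) :
    - zz (qq K) k k n (k - 1) ≤ mu (qq K) j * zz (qq K) k k n (k - j) := by
  have h1 : 0 < zz (qq K) k k n (k - 1) := zz_pos k n hn _ (by omega)
  have h2 : 0 < zz (qq K) k k n (k - j) := zz_pos k n hn _ (by omega)
  have hq : 0 < qq K ^ (j.choose 2) := pow_pos qq_pos _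
  rcases Nat.eq_zero_or_pos j with rfl | hj0
  · unfold mu
    simp only [pow_zero, one_mul, Nat.choose_zero_succ]
    linarith
  · have h3 := z_bound (K := K) k n hn j hj0 hj
    unfold mu
    rcases neg_one_pow_eq_or ℝ j with h | h
    · rw [h, one_mul]
      have : 0 < qq K ^ (j.choose 2) * zz (qq K) k k n (k - j) := mul_pos hq h2
      linarith
    · rw [h]
      linarith

end Numbers

variable {K V : Type} [Field K] [Finite K] [AddCommGroup V] [Module K V] [Module.Finite K V]
  [Fintype V] [Fintype (Submodule K V)]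

lemma card_ind (k : ℕ) (S : Set (Submodule K V)) (hS : ∀ U ∈ S, finrank K U = k) :
    ∑ A : Lk K V k, (if A.1 ∈ S then (1 : ℝ) else 0) = S.ncard := by
  rw [sumL k (fun A => if A ∈ S then (1 : ℝ) else 0)]
  have h1 : ∀ C : Submodule K V, (if finrank K C = k then (if C ∈ S then (1 : ℝ) else 0) else 0) =
      if C ∈ S then 1 else 0 := by
    intro C
    by_cases hC : C ∈ S
    · simp [hC, hS C hC]
    · simp [hC]
  rw [sum_congr rfl fun C _ => h1 C, ← sum_filter, sum_const, nsmul_eq_mul, mul_one,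
    Set.ncard_eq_toFinset_card']
  congr 2
  ext C
  simp

lemma degree (k : ℕ) (A : Lk K V k) : ∑ C : Lk K V k, MM K V k A C =
    zz (qq K) k k (finrank K V) k := by
  have h := cnt_eq k A.1 ⊤ le_top k ⊥ (by rw [finrank_bot, zero_add]) bot_le (bot_inf_eq _)
  rw [A.2, finrank_top] at h
  rw [← h]
  unfold MM cntZ Ok
  rw [sumL k (fun C => if C ⊓ A.1 = ⊥ then (1 : ℝ) else 0)]
  refine sum_congr rfl fun C _ => ?_
  by_cases h1 : finrank K C = k <;> by_cases h2 : C ⊓ A.1 = ⊥ <;> simp [h1, h2]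

theorem main (k : ℕ) (hk : 1 ≤ k) (hn : 2 * k ≤ finrank K V) (S : Set (Submodule K V))
    (hS : ∀ U ∈ S, finrank K U = k) (hSS : ∀ U ∈ S, ∀ W ∈ S, U ⊓ W ≠ ⊥) :
    (qq K ^ finrank K V - qq K ^ k) * (S.ncard : ℝ) ≤
      (qq K ^ k - 1) * ∑ A : Lk K V k, (if ∃ b ∈ S, A.1 ⊓ b = ⊥ then (1 : ℝ) else 0) := by
  set n := finrank K V with hnd
  set D := zz (qq K) k k n k with hD
  set τ := zz (qq K) k k n (k - 1) with hτ
  have hDpos : 0 < D := zz_pos k n hn _ le_rfl
  have hτpos : 0 < τ := zz_pos k n hn _ (by omega)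
  have hrel : D * (qq K ^ k - 1) = τ * (qq K ^ n - qq K ^ k) := by
    have h := z_rec (K := K) k n 0 (by omega)
    simpa using h
  have hpsd := psd (K := K) (V := V) k τ (fun j hj => eig_ge k n hk hn j hj)
  set M := MM K V k with hM
  set y : Lk K V k → ℝ := fun A => if A.1 ∈ S then 1 else 0 with hy
  set u : Lk K V k → ℝ := fun A => if ∃ b ∈ S, A.1 ⊓ b = ⊥ then 1 else 0 with hu
  set w : Lk K V k → ℝ := fun A => y A + u A with hw
  have hyu : ∀ A, y A * u A = 0 := by
    intro A
    by_cases h1 : A.1 ∈ S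
    · have : ¬ ∃ b ∈ S, A.1 ⊓ b = ⊥ := by
        rintro ⟨b, hb, h⟩
        exact hSS _ h1 _ hb h
      simp [hu, this]
    · simp [hy, h1]
  have hyy : ∀ A, y A * y A = y A := by
    intro A
    by_cases h1 : A.1 ∈ S <;> simp [hy, h1]
  have huu : ∀ A, u A * u A = u A := by
    intro A
    by_cases h1 : ∃ b ∈ S, A.1 ⊓ b = ⊥ <;> simp [hu, h1]
  have hww : ∀ A, w A * w A = w A := by
    intro A
    have h1 := hyu A
    have h2 := hyy A
    have h3 := huu A
    simp only [hw]
    linear_combination h2 + h3 + 2 * h1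
  have hyw : ∀ A, y A * w A = y A := by
    intro A
    have h1 := hyu A
    have h2 := hyy A
    simp only [hw]
    linear_combination h2 + h1
  have hMnn : ∀ A C, 0 ≤ M A C := by
    intro A C
    simp only [hM, MM]
    split_ifs <;> norm_num
  have hMs : ∀ A C, M A C = M C A := by
    intro A C
    simp only [hM, MM, inf_comm]
  have hy0 : ∀ A, 0 ≤ y A := by
    intro A
    simp only [hy]
    split_ifs <;> norm_num
  have hw01 : ∀ A, 0 ≤ w A ∧ w A ≤ 1 := by
    intro A
    have h1 := hww A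
    constructor
    · rw [← h1]
      exact mul_self_nonneg _
    · nlinarith
  -- the three values
  have ayy : ∑ A, ∑ C, y A * M A C * y C = 0 := by
    refine sum_eq_zero fun A _ => sum_eq_zero fun C _ => ?_
    by_cases h1 : A.1 ∈ S
    · by_cases h2 : C.1 ∈ S
      · have : M A C = 0 := by
          simp only [hM, MM]
          rw [if_neg (hSS _ h2 _ h1)]
        rw [this, mul_zero, zero_mul]
      · have : y C = 0 := if_neg h2
        rw [this, mul_zero]
    · have : y A = 0 := if_neg h1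
      rw [this, zero_mul, zero_mul]
  have ayw : ∑ A, ∑ C, y A * M A C * w C = D * ∑ A, y A := by
    rw [mul_sum]
    refine sum_congr rfl fun A _ => ?_
    by_cases h1 : A.1 ∈ S
    · have h2 : ∀ C, y A * M A C * w C = y A * M A C := by
        intro C
        by_cases h3 : C.1 ⊓ A.1 = ⊥
        · have h4 : u C = 1 := if_pos ⟨A.1, h1, h3⟩
          have h5 := hyu C
          rw [h4, mul_one] at h5
          simp only [hw]
          rw [h4, h5]
          ring
        · have : M A C = 0 := if_neg h3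
          rw [this]
          ring
      rw [sum_congr rfl fun C _ => h2 C, ← mul_sum, degree k A]
      ring
    · have : y A = 0 := if_neg h1
      simp [this]
  have awy : ∑ A, ∑ C, w A * M A C * y C = D * ∑ A, y A := by
    rw [← ayw, sum_comm]
    refine sum_congr rfl fun A _ => sum_congr rfl fun C _ => ?_
    rw [hMs C A]
    ring
  have aww : ∑ A, ∑ C, w A * M A C * w C ≤ D * ∑ A, w A := by
    rw [mul_sum]
    refine sum_le_sum fun A _ => ?_
    have hdeg : ∑ C, M A C = D := degree k A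
    have hstep : ∑ C, w A * M A C * w C ≤ ∑ C, w A * M A C := by
      refine sum_le_sum fun C _ => ?_
      have h1 := hMnn A C
      have h2 := (hw01 A).1
      have h3 := (hw01 C).2
      have h4 : 0 ≤ w A * M A C := mul_nonneg h2 h1
      calc w A * M A C * w C ≤ w A * M A C * 1 := mul_le_mul_of_nonneg_left h3 h4
        _ = _ := mul_one _
    rw [← mul_sum, hdeg] at hstep
    linarith
  -- the positive form
  have hpos : 0 ≤ ∑ A, ∑ C, ((D + τ) * y A - τ * w A) * M A C * ((D + τ) * y C - τ * w C) +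
      τ * ∑ A, ((D + τ) * y A - τ * w A) ^ 2 := by
    have h := hpsd.dotProduct_mulVec_nonneg (fun A => (D + τ) * y A - τ * w A)
    rw [Matrix.add_mulVec, Matrix.smul_mulVec, Matrix.one_mulVec, dotProduct_add] at h
    refine le_trans h (le_of_eq ?_)
    congr 1
    · unfold dotProduct Matrix.mulVec dotProduct
      refine sum_congr rfl fun A _ => ?_
      rw [mul_sum]
      refine sum_congr rfl fun C _ => ?_
      simp only [star_trivial, Pi.star_apply]
      ring
    · unfold dotProduct
      rw [mul_sum]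
      refine sum_congr rfl fun A _ => ?_
      simp only [star_trivial, Pi.star_apply, Pi.smul_apply, smul_eq_mul]
      ring
  have h1 : ∑ A, ∑ C, ((D + τ) * y A - τ * w A) * M A C * ((D + τ) * y C - τ * w C) =
      (D + τ) ^ 2 * (∑ A, ∑ C, y A * M A C * y C) - (D + τ) * τ * (∑ A, ∑ C, y A * M A C * w C) -
      (D + τ) * τ * (∑ A, ∑ C, w A * M A C * y C) + τ ^ 2 * (∑ A, ∑ C, w A * M A C * w C) := by
    simp only [mul_sum, ← sum_add_distrib, ← sum_sub_distrib]
    refine sum_congr rfl fun A _ => sum_congr rfl fun C _ => ?_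
    ring
  have h2 : ∑ A, ((D + τ) * y A - τ * w A) ^ 2 =
      (D + τ) ^ 2 * (∑ A, y A) - 2 * (D + τ) * τ * (∑ A, y A) + τ ^ 2 * (∑ A, w A) := by
    simp only [mul_sum, ← sum_add_distrib, ← sum_sub_distrib]
    refine sum_congr rfl fun A _ => ?_
    have e1 := hyy A
    have e2 := hyw A
    have e3 := hww A
    linear_combination (D + τ) ^ 2 * e1 - 2 * (D + τ) * τ * e2 + τ ^ 2 * e3
  have h3 : ∑ A, w A = ∑ A, y A + ∑ A, u A := sum_add_distrib
  have h4 : ∑ A, y A = S.ncard := card_ind k S hS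
  rw [h1, h2, ayy, ayw, awy] at hpos
  have h5 : 0 ≤ τ * (D + τ) * (τ * ∑ A, w A - (D + τ) * ∑ A, y A) := by
    have h6 : τ ^ 2 * (∑ A, ∑ C, w A * M A C * w C) ≤ τ ^ 2 * (D * ∑ A, w A) :=
      mul_le_mul_of_nonneg_left aww (sq_nonneg τ)
    nlinarith [hpos, h6]
  have h6 : 0 ≤ τ * ∑ A, w A - (D + τ) * ∑ A, y A :=
    nonneg_of_mul_nonneg_right h5 (by positivity)
  rw [h3] at h6
  have h7 : D * ∑ A, y A ≤ τ * ∑ A, u A := by linarith
  rw [h4] at h7
  have h8 : D * ((qq K ^ n - qq K ^ k) * S.ncard) ≤ D * ((qq K ^ k - 1) * ∑ A, u A) := by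
    have h9 : 0 < qq K ^ n - qq K ^ k := by
      have := pow_lt (K := K) (a := k) (b := n) (by omega)
      linarith
    calc D * ((qq K ^ n - qq K ^ k) * S.ncard) = (qq K ^ n - qq K ^ k) * (D * S.ncard) := by ring
      _ ≤ (qq K ^ n - qq K ^ k) * (τ * ∑ A, u A) := mul_le_mul_of_nonneg_left h7 h9.le
      _ = (D * (qq K ^ k - 1)) * ∑ A, u A := by rw [hrel]; ring
      _ = _ := by ring
  exact le_of_mul_le_mul_left h8 hDpos

end Pool.Agent.P8H88.EKR

namespace Pool.Agent.P8H99.CT

open Pool.Agent.P8H88.EKR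

/-- **Erdős–Ko–Rado for vector spaces, weighted form** -/
theorem lemE : S_E := by
  intro K V _ _ _ _ _ k hk hn A B hBA hA hAB
  have : Finite V := finV K V
  have : Finite (Submodule K V) := finSub
  have : Fintype V := Fintype.ofFinite V
  have : Fintype (Submodule K V) := Fintype.ofFinite _
  have h1 := Pool.Agent.P8H88.EKR.main k hk hn B (fun U hU => hA U (hBA hU))
    (fun U hU W hW => hAB U (hBA hU) W hW)
  have h2 : (A.ncard : ℝ) + ∑ U : Lk K V k, (if ∃ b ∈ B, U.1 ⊓ b = ⊥ then (1 : ℝ) else 0) ≤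
      NS K V k := by
    rw [← card_ind k A hA]
    have h3 : ((NS K V k : ℕ) : ℝ) = ∑ U : Lk K V k, (1 : ℝ) := by
      unfold NS
      rw [← card_ind k {U : Submodule K V | finrank K U = k} (fun U hU => hU)]
      refine sum_congr rfl fun U _ => ?_
      rw [if_pos]
      exact U.2
    rw [h3, ← sum_add_distrib]
    refine sum_le_sum fun U _ => ?_
    by_cases h4 : U.1 ∈ A
    · have : ¬ ∃ b ∈ B, U.1 ⊓ b = ⊥ := by
        rintro ⟨b, hb, h⟩
        exact hAB _ h4 _ hb h
      rw [if_pos h4, if_neg this]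
      norm_num
    · rw [if_neg h4, zero_add]
      split_ifs <;> norm_num
  have h3 : (0 : ℝ) ≤ qq K ^ k - 1 := by
    have := one_le_pow₀ (n := k) (one_lt_qq (K := K)).le
    linarith
  have h4 := mul_le_mul_of_nonneg_left h2 h3
  rw [mul_add] at h4
  change (qq K ^ k - 1) * (A.ncard : ℝ) + (qq K ^ finrank K V - qq K ^ k) * (B.ncard : ℝ) ≤
    (qq K ^ k - 1) * (NS K V k : ℝ)
  linarith

end Pool.Agent.P8H99.CT
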